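import Pool.Agent.Q319.VF.Lift
import Pool.Agent.Q319.VF.Logic

set_option autoImplicit false

/-! The transfer of fragments from residue fields to henselian valued fields with a uniformizer
fails for all standard fragments with at least three blocks of quantifiers. -/

namespace Pool.Agent.Results.MP_65f174_lc.FailsBeyondAE

open Pool.Agent.Q319.VF IsLocalRing

/-! ### the sentence -/

/-- the variable `γ` (the outer one) -/
def vg : Tm SVal [S3.grp, S3.grp] S3.grp := .var (.succ .zero)

/-- the term `δ + δ` -/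
def dd : Tm SVal [S3.grp, S3.grp] S3.grp := .f2 (S := SVal) V2.gadd (.var .zero) (.var .zero)

/-- the term `(δ + δ) + v(ϖ)` -/
def ddp : Tm SVal [S3.grp, S3.grp] S3.grp :=
  .f2 (S := SVal) V2.gadd dd (.f1 (S := SVal) V1.val (.c (S := SVal) VC.pi))

/-- the sentence `∃ γ ∀ δ (γ ≠ δ + δ ∧ γ ≠ (δ + δ) + v(ϖ))` -/
def sent : Pre SVal [] :=
  .ex (S := SVal) S3.grp (.all (S := SVal) S3.grp (.qf (.and (.not (.eq vg dd)) (.not (.eq vg ddp)))))

theorem holds_sent {K : Type} [Field K] (O : ValuationSubring K) (p : K) :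
    sent.Holds (valStr O p) .nil ↔
      ∃ g : O.ValueGroup, ∀ d : O.ValueGroup, g ≠ d * d ∧ g ≠ d * d * O.valuation p := Iff.rfl

theorem blocks_nil : ∀ (n : ℕ) (q : Bool), Blocks q n []
  | 0, _ => rfl
  | n + 1, q => ⟨[], [], rfl, by simp, blocks_nil n _⟩

theorem blocks_two (n : ℕ) : Blocks true (n + 2) [true, false] :=
  ⟨[true], [false], rfl, by simp, [false], [], rfl, by simp, blocks_nil n _⟩

theorem sent_frag {n : ℕ} (hn : 3 ≤ n) : InFragment n sent := by
  show Blocks (decide (n % 2 = 1)) n [true, false]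
  rcases Nat.mod_two_eq_zero_or_one n with h | h
  · rw [h]
    obtain ⟨m, rfl⟩ := Nat.exists_eq_add_of_le' hn
    exact ⟨[], [true, false], rfl, by simp, blocks_two m⟩
  · rw [h]
    obtain ⟨m, rfl⟩ := Nat.exists_eq_add_of_le' (show 2 ≤ n by omega)
    exact blocks_two m

/-! ### the valued fields -/

noncomputable section

/-- the trivial valuation ring of `ℚ` -/
abbrev A0 : ValuationSubring ℚ := ⊤

/-- `ℚ((t))` -/
abbrev L : Type := LaurentSeries ℚ

/-- `ℚ((x))((y))` -/
abbrev K : Type := LaurentSeries L

/-- `ℚ[[t]]` -/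
abbrev OL : ValuationSubring L := lift A0

/-- the valuation ring of `ℚ((x))((y))` of rank two -/
abbrev OK : ValuationSubring K := lift OL

theorem A0_zero_or_unit (a : A0) : a = 0 ∨ IsUnit a := by
  by_cases h : (a : ℚ) = 0
  · left
    exact Subtype.ext h
  · right
    exact IsUnit.of_mul_eq_one (⟨(a : ℚ)⁻¹, trivial⟩ : A0) (Subtype.ext (mul_inv_cancel₀ h))

instance hensA0 : HenselianLocalRing A0 := by
  refine HenselianLocalRing.mk fun f _ a0 h1 _ => ⟨a0, ?_, ?_⟩
  · rcases A0_zero_or_unit (f.eval a0) with h | h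
    · exact h
    · rw [mem_maximalIdeal, mem_nonunits_iff] at h1
      exact absurd h h1
  · rw [sub_self]
    exact Ideal.zero_mem _

instance hensOL : HenselianLocalRing OL := henselian_lift A0

instance hensOK : HenselianLocalRing OK := henselian_lift OL

variable {F : Type} [Field F]

theorem unit_iff (A : ValuationSubring F) (x : lift A) : IsUnit x ↔ IsUnit (cc A x) :=
  ⟨fun h => h.map _, fun h => IsLocalHom.map_nonunit _ h⟩

theorem val_lt_one (A : ValuationSubring F) (x : lift A) :
    (lift A).valuation (x : LaurentSeries F) < 1 ↔ A.valuation (cc A x : F) < 1 := by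
  rw [← ValuationSubring.valuation_lt_one_iff, ← ValuationSubring.valuation_lt_one_iff,
    mem_maximalIdeal, mem_maximalIdeal, mem_nonunits_iff, mem_nonunits_iff, unit_iff]

theorem mem_of_lt (A : ValuationSubring F) {z : F} (h : A.valuation z < 1) : z ∈ A :=
  A.mem_of_valuation_le_one z h.le

/-- A uniformizer of `A` gives one of `lift A`. -/
theorem unif_lift (A : ValuationSubring F) (p : F) (h : IsUniformizer A p) :
    IsUniformizer (lift A) (io F (PowerSeries.C p)) := by
  obtain ⟨h0, h1, h2⟩ := h
  have hpA : p ∈ A := mem_of_lt A h1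
  have hC : PowerSeries.constantCoeff (PowerSeries.C p) ∈ A := by
    rw [PowerSeries.constantCoeff_C]
    exact hpA
  refine ⟨?_, ?_, ?_⟩
  · intro h
    rw [← map_zero (io F)] at h
    have := congrArg PowerSeries.constantCoeff (io_inj h)
    rw [PowerSeries.constantCoeff_C, map_zero] at this
    exact h0 this
  · have := (val_lt_one A (mkL A (PowerSeries.C p) hC)).2 (by
      rw [cc_val, jj_mkL, PowerSeries.constantCoeff_C]
      exact h1)
    exact this
  · intro z hz
    have hzA : z ∈ lift A := mem_of_lt _ hz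
    have h3 := (val_lt_one A ⟨z, hzA⟩).1 hz
    have h4 := h2 _ h3
    rw [ValuationSubring.valuation_le_iff] at h4
    obtain ⟨a, ha⟩ := h4
    have h5 : PowerSeries.constantCoeff (PowerSeries.C p⁻¹ * jj A ⟨z, hzA⟩) ∈ A := by
      rw [map_mul, PowerSeries.constantCoeff_C, ← cc_val, ← ha]
      have : p⁻¹ * ((a : F) * p) = a := by field_simp
      rw [this]
      exact a.2
    have h6 : z = ((mkL A _ h5 : lift A) : LaurentSeries F) * io F (PowerSeries.C p) := by
      rw [mkL_val, ← map_mul, mul_comm, ← mul_assoc, ← map_mul PowerSeries.C,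
        mul_inv_cancel₀ h0, map_one, one_mul, io_jj]
    rw [h6, map_mul]
    calc _ ≤ 1 * (lift A).valuation (io F (PowerSeries.C p)) := by
          apply mul_le_mul_left
          exact (ValuationSubring.valuation_le_one_iff _ _).2 (mkL A _ h5).2
      _ = _ := one_mul _

theorem X_mem (A : ValuationSubring F) :
    PowerSeries.constantCoeff (PowerSeries.X : PowerSeries F) ∈ A := by
  rw [PowerSeries.constantCoeff_X]
  exact A.zero_mem

theorem io_X_ne : io F PowerSeries.X ≠ 0 := by
  intro h
  rw [← map_zero (io F)] at h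
  exact PowerSeries.X_ne_zero (io_inj h)

/-- `t` is a uniformizer of `ℚ[[t]]`. -/
theorem unif_L : IsUniformizer OL (io ℚ PowerSeries.X) := by
  refine ⟨io_X_ne, ?_, ?_⟩
  · have := (val_lt_one A0 (mkL A0 PowerSeries.X (X_mem A0))).2 (by
      rw [cc_val, jj_mkL, PowerSeries.constantCoeff_X, map_zero]
      exact zero_lt_one)
    exact this
  · intro z hz
    have hzA : z ∈ OL := mem_of_lt _ hz
    have h3 := (ValuationSubring.valuation_lt_one_iff _ _).2 ((val_lt_one A0 ⟨z, hzA⟩).1 hz)
    have h4 : cc A0 ⟨z, hzA⟩ = 0 := by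
      rcases A0_zero_or_unit (cc A0 ⟨z, hzA⟩) with h | h
      · exact h
      · rw [mem_maximalIdeal, mem_nonunits_iff] at h3
        exact absurd h h3
    have h5 : PowerSeries.X ∣ jj A0 ⟨z, hzA⟩ := by
      rw [PowerSeries.X_dvd_iff, ← cc_val, h4]
      rfl
    obtain ⟨q, hq⟩ := h5
    have h6 : z = io ℚ PowerSeries.X * io ℚ q := by
      rw [← map_mul, ← hq, io_jj]
    rw [h6, map_mul]
    calc _ ≤ OL.valuation (io ℚ PowerSeries.X) * 1 := by
          apply mul_le_mul_right
          exact (ValuationSubring.valuation_le_one_iff _ _).2 ⟨q, trivial, rfl⟩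
      _ = _ := mul_one _

/-! ### the sentence is true in `K` -/

theorem order_io_nonneg {u : PowerSeries F} (hu : u ≠ 0) : 0 ≤ (io F u).order := by
  by_contra h
  have h1 : (io F u).coeff (io F u).order ≠ 0 := by
    have h2 : io F u ≠ 0 := by
      intro h3
      rw [← map_zero (io F)] at h3
      exact hu (io_inj h3)
    simpa using HahnSeries.coeff_order_eq_zero.not.2 h2
  apply h1
  have h3 : (io F u).coeff (io F u).order = (HahnSeries.ofPowerSeries ℤ F u).coeff
    (io F u).order := rfl
  rw [h3, HahnSeries.ofPowerSeries_apply]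
  apply HahnSeries.embDomain_of_notMem_range
  rintro ⟨n, hn⟩
  simp at hn
  omega

theorem order_io_zero {u : PowerSeries F} (hu : PowerSeries.constantCoeff u ≠ 0) :
    (io F u).order = 0 := by
  have hu0 : u ≠ 0 := by
    rintro rfl
    exact hu (map_zero _)
  have hv0 : u⁻¹ ≠ 0 := by
    intro h
    have := PowerSeries.mul_inv_cancel u hu
    rw [h, mul_zero] at this
    exact zero_ne_one this
  have h1 := order_io_nonneg hu0
  have h2 := order_io_nonneg hv0
  have h3 : (io F u * io F u⁻¹).order = (io F u).order + (io F u⁻¹).order :=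
    HahnSeries.order_mul (fun h => hu0 (io_inj (h.trans (map_zero _).symm)))
      (fun h => hv0 (io_inj (h.trans (map_zero _).symm)))
  rw [← map_mul, PowerSeries.mul_inv_cancel u hu, map_one, HahnSeries.order_one] at h3
  omega

theorem order_unit (A : ValuationSubring F) (a : (lift A)ˣ) :
    ((a : lift A) : LaurentSeries F).order = 0 := by
  have h1 : IsUnit (cc A (a : lift A)) := a.isUnit.map _
  rw [← io_jj]
  apply order_io_zero
  rw [← cc_val]
  intro h
  exact h1.ne_zero (Subtype.ext h)

theorem order_X : (io F PowerSeries.X).order = 1 := by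
  have h : io F PowerSeries.X = HahnSeries.single 1 1 := HahnSeries.ofPowerSeries_X
  rw [h]
  exact HahnSeries.order_single one_ne_zero

/-- Values of elements of even order are different from the value of `y`. -/
theorem val_X_ne (A : ValuationSubring F) (g c : LaurentSeries F) (hc : c.order = 0) :
    (lift A).valuation (io F PowerSeries.X) ≠
      (lift A).valuation g * (lift A).valuation g * (lift A).valuation c := by
  intro h
  rw [← map_mul, ← map_mul, ValuationSubring.valuation_eq_iff] at h
  obtain ⟨a, ha⟩ := h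
  have hX : io F PowerSeries.X ≠ 0 := io_X_ne
  have h1 : g * g * c ≠ 0 := by
    intro h1
    rw [h1, mul_zero] at ha
    exact hX ha.symm
  have hg : g ≠ 0 := by
    rintro rfl
    simp at h1
  have hc0 : c ≠ 0 := by
    rintro rfl
    simp at h1
  have ha0 : ((a : lift A) : LaurentSeries F) ≠ 0 := by
    intro h2
    rw [h2, zero_mul] at ha
    exact hX ha.symm
  have h3 := congrArg HahnSeries.order ha
  rw [HahnSeries.order_mul ha0 h1, HahnSeries.order_mul (mul_ne_zero hg hg) hc0,
    HahnSeries.order_mul hg hg, order_unit, hc, order_X] at h3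
  omega

theorem sent_K (p : L) (hp : p ≠ 0) : ∃ g : OK.ValueGroup, ∀ d : OK.ValueGroup,
    g ≠ d * d ∧ g ≠ d * d * OK.valuation (io L (PowerSeries.C p)) := by
  refine ⟨OK.valuation (io L PowerSeries.X), fun d => ?_⟩
  obtain ⟨g, rfl⟩ := OK.valuation_surjective d
  constructor
  · have := val_X_ne OL g 1 HahnSeries.order_one
    rwa [map_one, mul_one] at this
  · apply val_X_ne
    apply order_io_zero
    rw [PowerSeries.constantCoeff_C]
    exact hp

/-! ### the sentence is false in `L` -/

theorem val_L (h : L) (h0 : h ≠ 0) : ∃ n : ℤ, OL.valuation h =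
    OL.valuation (io ℚ PowerSeries.X) ^ n := by
  obtain ⟨u, hu, hhu⟩ := exists_form h0
  refine ⟨h.order, ?_⟩
  have h1 : OL.valuation (io ℚ u) = 1 := by
    have huA : PowerSeries.constantCoeff u ∈ A0 := trivial
    have h2 : IsUnit (mkL A0 u huA) := by
      rw [unit_iff]
      rcases A0_zero_or_unit (cc A0 (mkL A0 u huA)) with h | h
      · exfalso
        apply hu
        have := congrArg Subtype.val h
        rwa [cc_val, jj_mkL] at this
      · exact h
    exact (ValuationSubring.valuation_eq_one_iff _ _).1 h2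
  have h3 : (HahnSeries.single h.order 1 : L) = (io ℚ PowerSeries.X) ^ h.order := by
    have h4 : io ℚ PowerSeries.X = HahnSeries.single 1 1 := HahnSeries.ofPowerSeries_X
    rw [h4, ← RatFunc.single_zpow]
  conv_lhs => rw [hhu]
  rw [map_mul, h1, mul_one, h3, map_zpow₀]

theorem sent_L : ¬ ∃ g : OL.ValueGroup, ∀ d : OL.ValueGroup,
    g ≠ d * d ∧ g ≠ d * d * OL.valuation (io ℚ PowerSeries.X) := by
  rintro ⟨g, hg⟩
  obtain ⟨h, rfl⟩ := OL.valuation_surjective g
  by_cases h0 : h = 0
  · subst h0
    apply (hg 0).1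
    rw [map_zero, mul_zero]
  have hX : OL.valuation (io ℚ PowerSeries.X) ≠ 0 := by
    rw [Valuation.ne_zero_iff]
    exact io_X_ne
  obtain ⟨n, hn⟩ := val_L h h0
  rcases Int.even_or_odd' n with ⟨m, hm | hm⟩
  · apply (hg (OL.valuation (io ℚ PowerSeries.X) ^ m)).1
    rw [hn, hm, two_mul, zpow_add₀ hX]
  · apply (hg (OL.valuation (io ℚ PowerSeries.X) ^ m)).2
    rw [hn, hm, two_mul, zpow_add₀ hX, zpow_add₀ hX, zpow_one]

/-- The value group of `ℚ((t))` is isomorphic to `ℤ`. -/
theorem group_iso : Nonempty (Multiplicative ℤ ≃*o (OL.ValueGroup)ˣ) := by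
  have hX : OL.valuation (io ℚ PowerSeries.X) ≠ 0 := by
    rw [Valuation.ne_zero_iff]
    exact io_X_ne
  set w : (OL.ValueGroup)ˣ := (Units.mk0 _ hX)⁻¹ with hw
  have hw1 : 1 < w := by
    rw [hw, one_lt_inv']
    rw [← Units.val_lt_val]
    exact unif_L.2.1
  have hmono : StrictMono fun n : ℤ => w ^ n := zpow_right_strictMono hw1
  let f : Multiplicative ℤ →* (OL.ValueGroup)ˣ := zpowersHom _ w
  have hf : ∀ n : Multiplicative ℤ, f n = w ^ (Multiplicative.toAdd n) := fun n => rfl
  have hbij : Function.Bijective f := by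
    constructor
    · intro a b hab
      rw [hf, hf] at hab
      exact hmono.injective hab
    · intro g
      obtain ⟨h, hh⟩ := OL.valuation_surjective (g : OL.ValueGroup)
      have h0 : h ≠ 0 := by
        rintro rfl
        rw [map_zero] at hh
        exact g.ne_zero hh.symm
      obtain ⟨n, hn⟩ := val_L h h0
      refine ⟨Multiplicative.ofAdd (-n), ?_⟩
      rw [hf]
      apply Units.ext
      rw [← hh, hn, hw]
      simp
  exact ⟨{ MulEquiv.ofBijective f hbij with
    map_le_map_iff' := fun {a b} => hmono.le_iff_le }⟩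

theorem ne_top_of_unif {K : Type} [Field K] (O : ValuationSubring K) (p : K)
    (h : IsUniformizer O p) : O ≠ ⊤ := by
  rintro rfl
  have h1 : p⁻¹ ∈ (⊤ : ValuationSubring K) := trivial
  rw [← ValuationSubring.valuation_le_one_iff, map_inv₀] at h1
  have h2 : (⊤ : ValuationSubring K).valuation p ≠ 0 := by
    rw [Valuation.ne_zero_iff]
    exact h.1
  have h3 : 1 ≤ (⊤ : ValuationSubring K).valuation p := by
    rwa [inv_le_one₀ (zero_lt_iff.2 h2)] at h1
  exact absurd h.2.1 (not_lt.2 h3)

theorem charZero_res0 : CharZero (ResidueField A0) := by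
  let f : ℚ →+* A0 :=
    { toFun := fun q => ⟨q, trivial⟩
      map_one' := rfl
      map_mul' := fun _ _ => rfl
      map_zero' := rfl
      map_add' := fun _ _ => rfl }
  exact charZero_of_injective_ringHom ((IsLocalRing.residue A0).comp f).injective

end

/-- There are henselian nontrivially valued fields `K`, `L` with uniformizers `π`, `π'`, all of
equal characteristic zero, with isomorphic residue fields and with the value group of `L`
isomorphic to `ℤ` (so it is a `ℤ`-group), such that for every `n` the residue fields satisfy the same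
sentences of the standard fragment with `n` blocks, but for every `n ≥ 3` some sentence of
the standard fragment with `n` blocks holds in `(K, v, π)` and not in `(L, w, π')`. -/
theorem result : ∃ (K L : Type) (_ : Field K) (_ : Field L) (O : ValuationSubring K)
    (O' : ValuationSubring L) (p : K) (p' : L), IsHVF O p ∧ IsHVF O' p' ∧
    Nonempty (Multiplicative ℤ ≃*o (O'.ValueGroup)ˣ) ∧
    Nonempty (ResidueField O ≃+* ResidueField O') ∧
    (∀ n, Th n (ringStr (ResidueField O)) = Th n (ringStr (ResidueField O'))) ∧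
    ∀ n, 3 ≤ n → ¬ Th n (valStr O p) ⊆ Th n (valStr O' p') := by
  obtain ⟨e1⟩ := residue_iso A0
  obtain ⟨e2⟩ := residue_iso OL
  have c0 := charZero_res0
  have c1 : CharZero (ResidueField OL) :=
    charZero_of_injective_ringHom (f := e1.symm.toRingHom) e1.symm.injective
  have c2 : CharZero (ResidueField OK) :=
    charZero_of_injective_ringHom (f := e2.symm.toRingHom) e2.symm.injective
  have cL : CharZero L := charZero_of_injective_ringHom (f := HahnSeries.C (Γ := ℤ) (R := ℚ))
    (RingHom.injective _)
  have cK : CharZero K := charZero_of_injective_ringHom (f := HahnSeries.C (Γ := ℤ) (R := L))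
    (RingHom.injective _)
  have hu := unif_lift OL _ unif_L
  refine ⟨K, L, inferInstance, inferInstance, OK, OL, _, io ℚ PowerSeries.X,
    ⟨cK, c2, hensOK, ne_top_of_unif _ _ hu, hu⟩,
    ⟨cL, c1, hensOL, ne_top_of_unif _ _ unif_L, unif_L⟩, group_iso,
    ⟨e2⟩, fun n => Th_iso (ringIso e2) n, fun n hn h => ?_⟩
  have h1 : sent ∈ Th n (valStr OK (io L (PowerSeries.C (io ℚ PowerSeries.X)))) :=
    ⟨sent_frag hn, (holds_sent _ _).2 (sent_K _ io_X_ne)⟩
  exact sent_L ((holds_sent _ _).1 (h h1).2)

end Pool.Agent.Results.MP_65f174_lc.FailsBeyondAE
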